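import Pool.Agent.Q164.LT.Quant

/-!
# How much information a random set of primes may have so that the law of Lang and Trotter holds

`cand r N`: the primes `p ∤ N` with `r ^ 2 ≤ 4 p`. A model with the constant `C` (`LTModel r N C q`) contains each candidate `p` independently
with probability `q p`, `2 √p q p → C`. For any random set `A` of integers (no independence is assumed) `entLT r N q μ A x` is the relative
entropy (nats) of the law of the set of the candidates below `x` in `A` with respect to the model, and `cntLT r N (A ω) x` is their number.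
-/

set_option autoImplicit false

namespace Pool.Agent.Results.MP_d74fca_nt.InformationForTheLaw

open MeasureTheory Filter Pool.Agent.Q120.ET Pool.Agent.Q120.ME Pool.Agent.Q164.LT
open scoped Topology

/-- Let `q` be a model with the constant `C > 0` and `d ≥ 0` nondecreasing. All random sets with `entLT ≤ d x` for large `x` almost surely
have `cntLT ~ C √x / log x` iff `∑_p d p (log p) ^ 2 / (p √p) < ∞`. -/
theorem result (r : ℤ) (N : ℕ) (C : ℝ) (q : ℕ → ℝ) (hN : N ≠ 0) (hC : 0 < C) (hq : LTModel r N C q)
    (d : ℕ → ℝ) (hm : Monotone d) (hd : ∀ n, 0 ≤ d n) :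
    (∀ (Ω : Type) [MeasurableSpace Ω] (μ : Measure Ω) [IsProbabilityMeasure μ] (A : Ω → Set ℕ), IsRandomSet A →
      (∀ᶠ x : ℕ in atTop, entLT r N q μ A x ≤ d x) →
        ∀ᵐ ω ∂μ, Tendsto (fun x : ℕ => (cntLT r N (A ω) x : ℝ) * Real.log x / Real.sqrt x) atTop (𝓝 C)) ↔
    Summable (fun n : ℕ => if n.Prime then d n * Real.log n ^ 2 / (n * Real.sqrt n) else 0) := by
  simp only [tendsto_cntLT]
  exact law_iff' Pool.Agent.Q224.LT.t_MASS hN hC hq hm hd

end Pool.Agent.Results.MP_d74fca_nt.InformationForTheLaw
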