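import Pool.Agent.Q164.LT.Quant

/-!
# The limit laws of the number of the primes with a given Frobenius trace, at a given amount of information

`cand r N`: the primes `p ∤ N` with `r ^ 2 ≤ 4 p`. A model with the constant `C` (`LTModel r N C q`) contains each candidate `p` independently
with probability `q p`, `2 √p q p → C`. For any random set `A` of integers (no independence is assumed) `entLT r N q μ A x` is the relative
entropy (nats) of the law of the set of the candidates below `x` in `A` with respect to the model, and `cntLT r N (A ω) x` is their number.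
The class `δ` (`ClsLT`): `entLT ≤ (δ + o(1)) √x / log x`.
-/

set_option autoImplicit false

namespace Pool.Agent.Results.MP_d74fca_nt.LimitLaws

open MeasureTheory Filter Pool.Agent.Q120.ET Pool.Agent.Q120.ME Pool.Agent.Q164.LT
open scoped Topology

/-- Let `q` be a model with the constant `C > 0` and `δ ≥ 0`. A probability measure `ν` is the law of `lim cntLT log x / √x` for some random
set of class `δ` iff it lives on `[0, ∞)` and `∫ (u log (u / C) - u + C) dν ≤ δ`. In particular the largest probability that only finitely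
many candidates are in a random set of class `δ` is `min 1 (δ / C)` (also without the hypothesis that the limit exists). -/
theorem result (r : ℤ) (N : ℕ) (C : ℝ) (q : ℕ → ℝ) (hN : N ≠ 0) (hC : 0 < C) (hq : LTModel r N C q) (δ : ℝ) (hδ : 0 ≤ δ) :
    (∀ ν : Measure ℝ, IsProbabilityMeasure ν →
      ((∃ (Ω : Type) (_ : MeasurableSpace Ω) (μ : Measure Ω) (_ : IsProbabilityMeasure μ) (A : Ω → Set ℕ) (L : Ω → ℝ), ClsLT r N q δ μ A ∧
        Measurable L ∧ μ.map L = ν ∧
        ∀ᵐ ω ∂μ, Tendsto (fun x : ℕ => (cntLT r N (A ω) x : ℝ) * Real.log x / Real.sqrt x) atTop (𝓝 (L ω))) ↔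
      ν (Set.Iio 0) = 0 ∧ ∫⁻ u, ENNReal.ofReal (u * Real.log (u / C) - u + C) ∂ν ≤ ENNReal.ofReal δ)) ∧
    (∀ (Ω : Type) [MeasurableSpace Ω] (μ : Measure Ω) [IsProbabilityMeasure μ] (A : Ω → Set ℕ), ClsLT r N q δ μ A →
      μ.real {ω | (A ω ∩ cand r N).Finite} ≤ δ / C) ∧
    ∃ (Ω : Type) (_ : MeasurableSpace Ω) (μ : Measure Ω) (_ : IsProbabilityMeasure μ) (A : Ω → Set ℕ), ClsLT r N q δ μ A ∧
      μ.real {ω | (A ω ∩ cand r N).Finite} = min 1 (δ / C) := by
  have S := setting Pool.Agent.Q224.LT.t_MASS hN hC hq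
  simp only [tendsto_cntLT]
  exact ⟨fun ν _ => laws_iff S hδ ν, (fin_max S hδ).1, (fin_max S hδ).2⟩

end Pool.Agent.Results.MP_d74fca_nt.LimitLaws
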