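import Pool.Agent.Q282.LT.PoisZ

/-!
# Lang–Trotter in families: the primes with a given Frobenius trace form a Poisson process

Let `a, b` be arbitrary polynomials in `d` variables over `ℤ`, and consider the curves
`E_ν : y ^ 2 = x ^ 3 + a(ν) x + b(ν)`, `ν ∈ ℤ ^ d`. For every prime `p ≤ x` some of the values of the trace `a_p(E_ν)` get one of the
labels `1, ..., s`, the others get no label; for instance the value `r_i` gets the label `i` if `p` is in a given set `𝒫_i`, and
then the number of the primes with the label `i` is the number of the `p ∈ 𝒫_i` with `a_p(E_ν) = r_i`, the counting function of the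
conjecture of Lang and Trotter restricted to `𝒫_i`. Suppose that the sum over `p ≤ x` of the probabilities that a random member of the
family over `F_p` has a label is at most `Λ` (for a fixed trace and the family of all curves the probability is of the order
`p ^ (-1 / 2)`, so that the sets `𝒫_i` may be intervals `[X, X + λ X ^ (1 / 2) log X]`, in which the conjecture of Lang and Trotter
predicts boundedly many primes).

It is proved that for every `ε > 0` there are constants such that for all boxes of parameters with sides at least `C₀ (d + 1) x ^ K`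
(1) the joint law of all labels (which primes have a label, and which one) differs in total variation by at most `ε` from the law for
all residues modulo the product of all primes up to `x` (which is about `e ^ x`), that is, from the law of independent choices;
(2) the numbers `N_1, ..., N_s` of the primes with the labels `1, ..., s` differ in total variation by at most `ε` plus the sum of the
squares of the probabilities from independent Poisson variables with the expectations of the model. In particular the proportion of
the curves for which no prime of `𝒫` has the trace `r` is `e ^ (-λ)` up to these errors, `λ` the expectation of the model.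
The constants depend on `s`, `Λ` and `ε` only, not on the family, the traces, the sets, `x` and the position of the box.

Proof. Functions of sparse configurations are expanded by Moebius inversion over subsets, truncated with an explicit error (a
sieve), and the terms are periodic with a small period; the inequality of Le Cam is proved for residues to coprime moduli with
several types of successes.
-/

set_option autoImplicit false

namespace Pool.Agent.Results.MP_d74fca_nt.PoissonLaw

open Finset MeasureTheory ProbabilityTheory

/-- The number of the solutions `(x, y)` of `y² = x³ + A x + B` modulo `p`. -/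
def points (p : ℕ) (A B : ℤ) : ℕ :=
  ((range p ×ˢ range p).filter
    (fun xy : ℕ × ℕ => (p : ℤ) ∣ (xy.2 : ℤ) ^ 2 - ((xy.1 : ℤ) ^ 3 + A * xy.1 + B))).card

/-- The label at the prime `p` of the curve `y² = x³ + A x + B`: it is the label `c p t` of its trace of Frobenius
`t = p + 1 - #E(F_p) = p - points p A B`, if the curve is smooth modulo `p`; there is no label if `p ∣ 2 (4 A³ + 27 B²)`. -/
noncomputable def label {s : ℕ} (c : ℕ → ℤ → Option (Fin s)) (A B : ℤ) (p : ℕ) : Option (Fin s) :=
  if (p : ℤ) ∣ 2 * (4 * A ^ 3 + 27 * B ^ 2) then none else c p ((p : ℤ) - points p A B)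

/-- The primes up to `x`. -/
def primes (x : ℕ) : Finset ℕ := (range (x + 1)).filter Nat.Prime

/-- The labels of the curve at the primes up to `x`. -/
noncomputable def labels {s : ℕ} (c : ℕ → ℤ → Option (Fin s)) (x : ℕ) (A B : ℤ) : ℕ → Option (Fin s) :=
  fun p => if p ∈ primes x then label c A B p else none

/-- The numbers of the primes up to `x` at which the curve has the label `i`, for all `i`. -/
noncomputable def counts {s : ℕ} (c : ℕ → ℤ → Option (Fin s)) (x : ℕ) (A B : ℤ) : Fin s → ℕ :=
  fun i => ((primes x).filter fun p => label c A B p = some i).card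

/-- The box of the integer vectors `ν` with `m i ≤ ν i < m i + L i`. -/
noncomputable def box {d : ℕ} (m : Fin d → ℤ) (L : Fin d → ℕ) : Finset (Fin d → ℤ) :=
  Fintype.piFinset fun i => Ico (m i) (m i + L i)

open Classical in
/-- The proportion of the `ν` of the box with the property `P`. -/
noncomputable def proportion {d : ℕ} (m : Fin d → ℤ) (L : Fin d → ℕ) (P : (Fin d → ℤ) → Prop) : ℝ :=
  (((box m L).filter P).card : ℝ) / ∏ i, (L i : ℝ)

open Classical in
/-- The proportion of the residues `ν` modulo `q` with the property `P`. -/
noncomputable def residues (d q : ℕ) (P : (Fin d → ℤ) → Prop) : ℝ :=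
  (((Fintype.piFinset fun _ : Fin d => range q).filter fun ν => P fun i => (ν i : ℤ)).card : ℝ) / (q : ℝ) ^ d

/-! ### Proofs -/

lemma points_congr (p : ℕ) {A A' B B' : ℤ} (hA : (p : ℤ) ∣ A - A') (hB : (p : ℤ) ∣ B - B') :
    points p A B = points p A' B' := by
  unfold points
  congr 1
  apply filter_congr
  intro xy _
  have h : (p : ℤ) ∣ ((xy.2 : ℤ) ^ 2 - ((xy.1 : ℤ) ^ 3 + A * xy.1 + B)) -
      ((xy.2 : ℤ) ^ 2 - ((xy.1 : ℤ) ^ 3 + A' * xy.1 + B')) := by
    have e : ((xy.2 : ℤ) ^ 2 - ((xy.1 : ℤ) ^ 3 + A * xy.1 + B)) -
      ((xy.2 : ℤ) ^ 2 - ((xy.1 : ℤ) ^ 3 + A' * xy.1 + B')) = -((A - A') * xy.1 + (B - B')) := by ring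
    rw [e]
    exact (dvd_add (hA.mul_right _) hB).neg_right
  exact (dvd_iff_dvd_of_dvd_sub h)

lemma label_congr {s : ℕ} (c : ℕ → ℤ → Option (Fin s)) (p : ℕ) {A A' B B' : ℤ} (hA : (p : ℤ) ∣ A - A') (hB : (p : ℤ) ∣ B - B') :
    label c A B p = label c A' B' p := by
  unfold label
  have h : (p : ℤ) ∣ 2 * (4 * A ^ 3 + 27 * B ^ 2) - 2 * (4 * A' ^ 3 + 27 * B' ^ 2) := by
    have e : 2 * (4 * A ^ 3 + 27 * B ^ 2) - 2 * (4 * A' ^ 3 + 27 * B' ^ 2) =
      (A - A') * (8 * (A ^ 2 + A * A' + A' ^ 2)) + (B - B') * (54 * (B + B')) := by ring
    rw [e]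
    exact dvd_add (hA.mul_right _) (hB.mul_right _)
  rw [points_congr p hA hB]
  by_cases h1 : (p : ℤ) ∣ 2 * (4 * A ^ 3 + 27 * B ^ 2)
  · rw [if_pos h1, if_pos ((dvd_iff_dvd_of_dvd_sub h).1 h1)]
  · rw [if_neg h1, if_neg (fun h2 => h1 ((dvd_iff_dvd_of_dvd_sub h).2 h2))]

lemma eval_congr {d : ℕ} (p : ℕ) (a : MvPolynomial (Fin d) ℤ) {ν ν' : Fin d → ℤ} (h : ∀ i, (p : ℤ) ∣ ν i - ν' i) :
    (p : ℤ) ∣ MvPolynomial.eval ν a - MvPolynomial.eval ν' a := by
  induction a using MvPolynomial.induction_on with
  | C c => simp
  | add f g hf hg =>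
    rw [map_add, map_add, add_sub_add_comm]
    exact dvd_add hf hg
  | mul_X f i hf =>
    rw [map_mul, map_mul, MvPolynomial.eval_X, MvPolynomial.eval_X]
    have e : MvPolynomial.eval ν f * ν i - MvPolynomial.eval ν' f * ν' i =
      (MvPolynomial.eval ν f - MvPolynomial.eval ν' f) * ν i + (ν i - ν' i) * MvPolynomial.eval ν' f := by ring
    rw [e]
    exact dvd_add (hf.mul_right _) ((h i).mul_right _)

lemma residues_eq (d q : ℕ) (P : (Fin d → ℤ) → Prop) : Q282LT.rprop d q P = residues d q P := by
  classical
  unfold Q282LT.rprop Q282LT.avg residues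
  rw [card_filter]
  push_cast
  congr 1

lemma proportion_eq {d : ℕ} (m : Fin d → ℤ) (L : Fin d → ℕ) (P : (Fin d → ℤ) → Prop) : Q282LT.zprop m L P = proportion m L P := rfl

/-- Let `s ≥ 0`, `ε > 0` and `Λ ≥ 0`. There are `C₀ > 0` and an integer `K` with the following property. Let `a, b` be polynomials in
`d ≥ 0` variables over `ℤ`, let `c` be a labelling, let `x ≥ 1`, and suppose that the sum over the primes `p ≤ x` of the
proportion of the `ν` modulo `p` for which `E_ν : y² = x³ + a(ν) x + b(ν)` has a label at `p` is at most `Λ`. Let a box of integer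
vectors be given all sides of which are at least `C₀ (d + 1) x ^ K`.

(1) For every set `𝒜` of labellings of the primes the proportion of the `ν` of the box for which the labels of `E_ν` at the primes up
to `x` are in `𝒜` differs by at most `ε` from the proportion of the residues `ν` modulo the product of all primes up to `x` with this
property.

(2) For every set `S` of vectors the proportion of the `ν` of the box for which the vector of the numbers of the primes `p ≤ x` with the
label `i` is in `S` differs from the probability that a vector of independent Poisson variables is in `S` by at most `ε` plus the sum of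
the squares of the proportions modulo `p`; the expectations are the sums over `p ≤ x` of the proportions of the `ν` modulo `p` with
the label `i`. -/
theorem result (s : ℕ) (ε Λ : ℝ) (hε : 0 < ε) (hΛ : 0 ≤ Λ) : ∃ (C₀ : ℝ) (K : ℕ), 0 < C₀ ∧
    ∀ (d : ℕ) (a b : MvPolynomial (Fin d) ℤ) (c : ℕ → ℤ → Option (Fin s)) (x : ℕ), 1 ≤ x →
      ∑ p ∈ primes x, residues d p (fun ν => label c (MvPolynomial.eval ν a) (MvPolynomial.eval ν b) p ≠ none) ≤ Λ →
      ∀ (m : Fin d → ℤ) (L : Fin d → ℕ), (∀ i, C₀ * (d + 1) * (x : ℝ) ^ K ≤ L i) →
      (∀ 𝒜 : Set (ℕ → Option (Fin s)),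
        |proportion m L (fun ν => labels c x (MvPolynomial.eval ν a) (MvPolynomial.eval ν b) ∈ 𝒜) -
          residues d (∏ p ∈ primes x, p) (fun ν => labels c x (MvPolynomial.eval ν a) (MvPolynomial.eval ν b) ∈ 𝒜)| ≤ ε) ∧
      ∀ S : Set (Fin s → ℕ),
        |proportion m L (fun ν => counts c x (MvPolynomial.eval ν a) (MvPolynomial.eval ν b) ∈ S) -
          (Measure.pi fun i => poissonMeasure (Real.toNNReal (∑ p ∈ primes x,
            residues d p (fun ν => label c (MvPolynomial.eval ν a) (MvPolynomial.eval ν b) p = some i)))).real S| ≤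
        ∑ p ∈ primes x, residues d p (fun ν => label c (MvPolynomial.eval ν a) (MvPolynomial.eval ν b) p ≠ none) ^ 2 + ε := by
  classical
  obtain ⟨C₀, K, hC₀, h⟩ := Q282LT.pois_z (κ := Fin s) ε Λ hε hΛ
  refine ⟨C₀, K, hC₀, ?_⟩
  intro d a b c x hx hlam m L hL
  have hI : ∀ p ∈ primes x, p.Prime ∧ p ≤ x := by
    intro p hp
    unfold primes at hp
    rw [mem_filter, mem_range] at hp
    exact ⟨hp.2, by omega⟩
  have h3 := h d (primes x) (fun p => p) (fun p ν => label c (MvPolynomial.eval ν a) (MvPolynomial.eval ν b) p)
    (fun p hp => (hI p hp).1.one_lt.le)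
    (fun p hp p' hp' hne => (Nat.coprime_primes (hI p hp).1 (hI p' hp').1).2 hne)
    (fun p _ ν ν' hνν => label_congr c p (eval_congr p a hνν) (eval_congr p b hνν))
    (by
      simp only [residues_eq]
      exact hlam)
    x hx (fun p hp => (hI p hp).2)
    (by
      calc (primes x).card ≤ (Icc 1 x).card := by
            refine card_le_card fun p hp => ?_
            rw [mem_Icc]
            exact ⟨(hI p hp).1.one_lt.le, (hI p hp).2⟩
        _ = x := by rw [Nat.card_Icc, Nat.add_sub_cancel])
    m L hL
  simp only [residues_eq, proportion_eq] at h3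
  exact h3

end Pool.Agent.Results.MP_d74fca_nt.PoissonLaw
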