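import Mathlib
import Pool.Agent.Q84.MB.F5
import Pool.Agent.W406.TW.LT

/-!
# Fixed Frobenius traces of the twists of all small curves by the primes of a string

`ap A B q` is the trace of Frobenius of `y² = x³ + A x + B` at `q`, and `piT A B t x` the number of the primes
`q ≤ x` not dividing `2 (4 A³ + 27 B²)` with trace `t`.

Let `ε > 0`. There are `C', δ > 0`, for every `m` a `c > 0` and for every `Z` a number `C` such that for every large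
`X` there is a set `S` of at most `(log X) ^ (49 / 50)` primes, all larger than `Z`, such that for EVERY function `f`
with values `1` and `-1` on the primes at least `X ^ (1 - δ)` integers `n`, `X < n ≤ 3X`, satisfy: the interval
`[n, n + C]` contains at least `m` primes, and for every prime `p` in it

* the twist by `p` multiplies the traces at all odd primes `q ≤ c log X` outside `S` by the prescribed signs `f q`,
  for all curves `y² = x³ + A x + B` at once;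
* for ALL curves with `|A|, |B| ≤ p ^ δ`, ALL `0 < |k| ≤ p ^ δ`, all `x` with `(log p) ^ C' ≤ x ≤ p ^ δ` and all
  `t ≠ 0` the number of primes `q ≤ x` at which the twist by `k p` has the trace `t` is half of the number of the
  primes `q ≤ x` at which the curve has trace `t` or `-t`, with the error `√n x ^ ε`, `n` the latter number.

So the signs of the traces of the twists by consecutive primes in bounded intervals can be prescribed up to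
`c log p`, and are random for the count of the primes with trace `t` from a power of `log p` on.
-/

set_option autoImplicit false

open scoped Classical

namespace Pool.Agent.Results.MP_d74fca_nt.TwistsByStringsOfPrimes

open Finset Filter Pool.Agent.W406.TW

/-- For all curves with coefficients at most `p ^ δ` and all `0 < |k| ≤ p ^ δ`, `(log p) ^ C ≤ x ≤ p ^ δ` and `t ≠ 0`
the number of primes up to `x` with trace `t` for the twist by `k p` is the mean of the numbers for the curve at `t`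
and `-t`, with an error `√n x ^ ε`, where `n` is the number of the primes with trace `t` or `-t`. -/
def Good (ε C δ : ℝ) (p : ℕ) : Prop := ∀ A B k : ℤ, |(A : ℝ)| ≤ (p : ℝ) ^ δ → |(B : ℝ)| ≤ (p : ℝ) ^ δ → k ≠ 0 →
  |(k : ℝ)| ≤ (p : ℝ) ^ δ → ∀ x : ℕ, (Real.log p) ^ C ≤ x → (x : ℝ) ≤ (p : ℝ) ^ δ → ∀ t : ℤ, t ≠ 0 →
    |(piT (A * (k * p) ^ 2) (B * (k * p) ^ 3) t x : ℝ) - (piT A B t x + piT A B (-t) x) / 2| ≤
      √((piT A B t x : ℝ) + piT A B (-t) x) * (x : ℝ) ^ ε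

theorem result (ε : ℝ) (hε : 0 < ε) : ∃ C' δ : ℝ, 0 < C' ∧ 0 < δ ∧ ∀ m : ℕ, ∃ c : ℝ, 0 < c ∧
    ∀ Z : ℕ, ∃ C : ℕ, ∃ X₀ : ℝ, ∀ X : ℝ, X₀ ≤ X →
    ∃ S : Finset ℕ, (∀ q ∈ S, q.Prime ∧ Z < q) ∧ (S.card : ℝ) ≤ (Real.log X) ^ (49 / 50 : ℝ) ∧
    ∀ f : ℕ → ℤ, (∀ q, f q = 1 ∨ f q = -1) →
      X ^ (1 - δ) ≤ (((Icc 1 ⌊3 * X⌋₊).filter fun n : ℕ => X < n ∧
        m ≤ ((Icc n (n + C)).filter Nat.Prime).card ∧
        ∀ p ∈ Icc n (n + C), p.Prime → Good ε C' δ p ∧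
          ∀ q : ℕ, q.Prime → q ≠ 2 → (q : ℝ) ≤ c * Real.log X → q ∉ S →
            ∀ A B : ℤ, ap (A * p ^ 2) (B * p ^ 3) q = f q * ap A B q).card : ℝ) := by
  obtain ⟨C₁, c₁, hC₁, hc₁, N₀, hN₀⟩ := lt_main ε hε
  obtain ⟨c₂, hc₂⟩ : ∃ c₂, c₂ = min c₁ 1 := ⟨_, rfl⟩
  have hc20 : 0 < c₂ := by rw [hc₂]; exact lt_min hc₁ one_pos
  have hc21 : c₂ ≤ 1 := by rw [hc₂]; exact min_le_right _ _
  have hc2c : c₂ ≤ c₁ := by rw [hc₂]; exact min_le_left _ _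
  obtain ⟨Bad, hBad⟩ : ∃ Bad : ℤ → ℤ → ℤ → ℕ → Prop, Bad = fun A B D (N : ℕ) => ∃ x : ℕ, (Real.log N) ^ C₁ ≤ x ∧
    (x : ℝ) ≤ (N : ℝ) ^ c₂ ∧ ∃ t : ℤ, t ≠ 0 ∧ √((piT A B t x : ℝ) + piT A B (-t) x) * (x : ℝ) ^ ε <
      |(piT (A * D ^ 2) (B * D ^ 3) t x : ℝ) - (piT A B t x + piT A B (-t) x) / 2| := ⟨_, rfl⟩
  have hcnt : ∀ N : ℕ, max N₀ 1 ≤ N → ∀ A B : ℤ,
      ({D : ℤ | D ≠ 0 ∧ |D| ≤ N ∧ Bad A B D N}.ncard : ℝ) ≤ (N : ℝ) ^ (1 - c₂) := by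
    intro N hN A B
    have hN1 : 1 ≤ N := (le_max_right _ _).trans hN
    have hN1' : (1 : ℝ) ≤ N := by exact_mod_cast hN1
    have h1 := hN₀ N ((le_max_left _ _).trans hN) A B
    refine le_trans ?_ (h1.trans (Real.rpow_le_rpow_of_exponent_le hN1' (by linarith)))
    have hfin : {D : ℤ | D ≠ 0 ∧ |D| ≤ N ∧ ∃ x : ℕ, (Real.log N) ^ C₁ ≤ x ∧ (x : ℝ) ≤ (N : ℝ) ^ c₁ ∧
        ∃ t : ℤ, t ≠ 0 ∧ √((piT A B t x : ℝ) + piT A B (-t) x) * (x : ℝ) ^ ε <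
          |(piT (A * D ^ 2) (B * D ^ 3) t x : ℝ) - (piT A B t x + piT A B (-t) x) / 2|}.Finite := by
      apply (Set.finite_Icc (-(N : ℤ)) N).subset
      intro D hD
      exact abs_le.1 hD.2.1
    have h2 : {D : ℤ | D ≠ 0 ∧ |D| ≤ N ∧ Bad A B D N} ⊆ {D : ℤ | D ≠ 0 ∧ |D| ≤ N ∧
        ∃ x : ℕ, (Real.log N) ^ C₁ ≤ x ∧ (x : ℝ) ≤ (N : ℝ) ^ c₁ ∧
        ∃ t : ℤ, t ≠ 0 ∧ √((piT A B t x : ℝ) + piT A B (-t) x) * (x : ℝ) ^ ε <
          |(piT (A * D ^ 2) (B * D ^ 3) t x : ℝ) - (piT A B t x + piT A B (-t) x) / 2|} := by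
      intro D hD
      obtain ⟨h3, h4, h5⟩ := hD
      rw [hBad] at h5
      obtain ⟨x, hx1, hx2, hx3⟩ := h5
      exact ⟨h3, h4, x, hx1, hx2.trans (Real.rpow_le_rpow_of_exponent_le hN1' hc2c), hx3⟩
    exact_mod_cast Set.ncard_le_ncard h2 hfin
  obtain ⟨δ, hδ⟩ : ∃ δ, δ = c₂ / 8 := ⟨_, rfl⟩
  have hδ0 : 0 < δ := by rw [hδ]; positivity
  refine ⟨C₁ + 1, δ, by linarith, hδ0, fun m => ?_⟩
  obtain ⟨c, hc, hmain⟩ := Pool.Agent.Q84.MB.sym_strings m δ hδ0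
  refine ⟨c, hc, fun Z => ?_⟩
  obtain ⟨C, hC⟩ := hmain Z
  obtain ⟨X₀, hX₀⟩ := eventually_atTop.1 ((hC.and (Pool.Agent.Q84.MB.twist_bad Bad c₂ hc20 hc21 _ hcnt)).and
    ((Pool.Agent.Q84.MB.NN_range C₁ c₂ hC₁ hc20 hc21).and (eventually_ge_atTop (1 : ℝ))))
  refine ⟨C, X₀, fun X hX => ?_⟩
  obtain ⟨⟨⟨S, hS1, hS2, hS3⟩, hbad⟩, hrange, hX1⟩ := hX₀ X hX
  refine ⟨S, hS1, hS2, fun f hf => ?_⟩
  have hP : (((Icc 1 ⌊4 * X⌋₊).filter fun p : ℕ => p.Prime ∧ X < p ∧ ¬ Good ε (C₁ + 1) δ p).card : ℝ) ≤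
      X ^ (1 - δ) := by
    refine (hbad _ fun p hp => ?_).trans (Real.rpow_le_rpow_of_exponent_le hX1 (by rw [hδ]; linarith))
    rw [mem_filter, mem_Icc] at hp
    obtain ⟨⟨-, hp4⟩, hpp, hXp, hg⟩ := hp
    have hp4' : (p : ℝ) ≤ 4 * X := (Nat.le_floor_iff (by linarith)).1 hp4
    unfold Good at hg
    push Not at hg
    obtain ⟨A, B, k, hA, hB, hk0, hk, x, hx1, hx2, t, ht0, ht⟩ := hg
    rw [hδ] at hA hB hk hx2
    obtain ⟨hr1, hr2⟩ := hrange p hXp hp4'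
    refine ⟨hpp, hXp, hp4', A, B, k, hA, hB, hk0, hk, ?_⟩
    rw [hBad]
    exact ⟨x, hr1.trans hx1, hx2.trans hr2, t, ht0, ht⟩
  have h3 := hS3 f hf (Good ε (C₁ + 1) δ) hP
  refine h3.trans ?_
  have hsub : ((Icc 1 ⌊3 * X⌋₊).filter fun n : ℕ => X < n ∧
        Pool.Agent.Q84.MB.SymStr m C (c * Real.log X) S f (Good ε (C₁ + 1) δ) n) ⊆
      ((Icc 1 ⌊3 * X⌋₊).filter fun n : ℕ => X < n ∧
        m ≤ ((Icc n (n + C)).filter Nat.Prime).card ∧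
        ∀ p ∈ Icc n (n + C), p.Prime → Good ε (C₁ + 1) δ p ∧
          ∀ q : ℕ, q.Prime → q ≠ 2 → (q : ℝ) ≤ c * Real.log X → q ∉ S →
            ∀ A B : ℤ, ap (A * p ^ 2) (B * p ^ 3) q = f q * ap A B q) := by
    intro n hn
    rw [mem_filter] at hn ⊢
    obtain ⟨h4, h5, h6, h7⟩ := hn
    refine ⟨h4, h5, h6, fun p hp hpp => ⟨(h7 p hp hpp).1, fun q hq hq2 hqy hqS A B => ?_⟩⟩
    rw [ap_twist A B p hq hq2, (h7 p hp hpp).2 q hq hq2 hqy hqS]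
  exact_mod_cast card_le_card hsub

end Pool.Agent.Results.MP_d74fca_nt.TwistsByStringsOfPrimes
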